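import Pool.Agent.H.MP_b831a3_al.C

namespace Pool.Agent.H.MP_2e2606_al

open FreeGroup hiding map_mul map_inv map_one
open Pool.Agent.H.MP_1d2ce7_al Pool.Agent.H.MP_a41846_al Pool.Agent.H.MP_b831a3_al

theorem ext1 {r : ℕ} (hr : 2 ≤ r) {V : Type} [Fintype V] (f : Fin r → Equiv.Perm V)
    {y s : Fin r × Bool} (hs : s ≠ fl y) (g : FreeGroup (Fin r)) {U : List (Fin r × Bool)}
    (hU : IsReduced U) : ∃ N, IsReduced (y :: s :: (N ++ U)) ∧
      lift f (mk (s :: (N ++ U))) = lift f g := by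
  classical
  obtain ⟨k, hk⟩ : ∃ k, Fintype.card (Equiv.Perm V) = k + 1 :=
    Nat.exists_eq_succ_of_ne_zero Fintype.card_ne_zero
  have tv : ∀ t : Fin r × Bool, lift f (mk (List.replicate k t)) * lift f (mk [t]) = 1 :=
    fun t => by
      rw [← pow_card_eq_one (x := lift f (mk [t])), hk, pow_succ, ← map_pow, pow_mk]
      simp
  let G := ((mk [s])⁻¹ * g * (mk U)⁻¹).toWord
  obtain ⟨t, a⟩ := join2 hr (L := G) (M := U) isReduced_toWord hU
  obtain ⟨t', a'⟩ := join2 hr (L := [y, s]) (red_cons IsReduced.singleton fun e =>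
    hs (by rw [e, fl_fl])) (pad a k)
  refine ⟨List.replicate k t' ++ t' :: (G ++ List.replicate k t ++ [t]),
    by simpa using pad a' k, ?_⟩
  have e : mk (s :: (List.replicate k t' ++ t' :: (G ++ List.replicate k t ++ [t]) ++ U))
      = mk [s] * (mk (List.replicate k t') * mk [t']) * mk G *
        (mk (List.replicate k t) * mk [t]) * mk U := by simp [mul_mk]
  rw [e]
  simp only [map_mul, tv, G, mk_toWord, map_inv]
  group

theorem univ {r : ℕ} (hr : 2 ≤ r) (V : Type) [Fintype V] : ∃ U : List (Fin r × Bool),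
    IsReduced U ∧ ∀ L : List (Fin r × Bool), IsCyclicallyReduced L → QR V (mk L) →
      ¬ U <:+: L := by
  classical
  have : ∀ T : List ((Fin r → Equiv.Perm V) × V × V × (Fin r × Bool) × (Fin r × Bool)),
      ∃ U : List (Fin r × Bool), IsReduced U ∧ ∀ p ∈ T, p.2.2.2.2 ≠ fl p.2.2.2.1 →
        (∃ g, lift p.1 g p.2.1 = p.2.2.1) → ∃ c1 c2, U = c1 ++ p.2.2.2.1 :: p.2.2.2.2 :: c2 ∧
          lift p.1 (mk (p.2.2.2.2 :: c2)) p.2.1 = p.2.2.1 := by
    intro T
    induction T with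
    | nil => exact ⟨[], IsReduced.nil, by simp⟩
    | cons p T ih =>
      obtain ⟨U, h1, h2⟩ := ih
      by_cases c : p.2.2.2.2 ≠ fl p.2.2.2.1 ∧ ∃ g, lift p.1 g p.2.1 = p.2.2.1
      · obtain ⟨c, g, e⟩ := c
        obtain ⟨N, n1, n2⟩ := ext1 hr p.1 c g h1
        refine ⟨_, n1, fun q hq a b => ?_⟩
        rcases List.mem_cons.1 hq with rfl | hq
        · exact ⟨[], _, rfl, by rw [n2, e]⟩
        · obtain ⟨c1, c2, e1, e2⟩ := h2 q hq a b
          exact ⟨p.2.2.2.1 :: p.2.2.2.2 :: (N ++ c1), c2, by simp [e1], e2⟩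
      · refine ⟨U, h1, fun q hq a b => ?_⟩
        rcases List.mem_cons.1 hq with rfl | hq
        · exact absurd ⟨a, b⟩ c
        · exact h2 q hq a b
  obtain ⟨U, h1, h2⟩ := this Finset.univ.toList
  refine ⟨U, h1, ?_⟩
  rintro _ hc h ⟨A, B, rfl⟩
  obtain ⟨f, v, b, y, s, p, ⟨g, q⟩, -, e⟩ := conf2 hc h
  obtain ⟨c1, c2, e1, e2⟩ := h2 (f, lift f (mk B) v, b, y, s) (by simp) p
    ⟨g * (mk B)⁻¹, by
      show lift f (g * (mk B)⁻¹) (lift f (mk B) v) = b
      rw [← Equiv.Perm.mul_apply, ← map_mul, inv_mul_cancel_right, q]⟩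
  refine e (A ++ c1) (c2 ++ B) (by simp [e1]) ?_
  rw [← List.cons_append, ← mul_mk, map_mul, Equiv.Perm.mul_apply]
  exact e2

end Pool.Agent.H.MP_2e2606_al
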